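import Mathlib
import Pool.Agent.Helper31.GZ.Defs
import Pool.Agent.Helper31.GZ.Final
import Pool.Agent.Y105.GZ.Emb

/-!
# Two spines of one three-dimensional polyhedron without homotopy embeddings in the products

A stronger form of `ZeemanDisproof`: `K` and `L` are collapses of one polyhedron `M` in `ℝ³`, and
no p.l. embedding of `L` in `K × I`, or of `K` in `L × I`, has even a right homotopy inverse.
`IsPolyhedron`, `IsTwoDimensional`, `Collapses`, `Deformation`, `PLHomeo`, `IsPLOn` are those of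
`Pool.Agent.Helper31.GZ.Defs`.
-/

set_option autoImplicit false

open Set Pool.Agent.Helper31.GZ Pool.Agent.Y105.GZE

namespace Pool.Agent.Results.MP_e11f15_gt.NoHomotopyEmbedding

/-- There are compact connected two-dimensional polyhedra `K` and `L` in `ℝ³` which are both
collapses of one compact polyhedron `M` in `ℝ³` (so `K ↗ M ↘ L` is a `3`-deformation), such that
for every p.l. embedding `e` of `L` in `K × I` there is no continuous `r : K × I → L` with `e ∘ r`
homotopic to the identity (so `e` is not a homotopy equivalence), and the same with `K` and `L`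
exchanged. In particular `K × I` collapses onto no copy of `L` and `L × I` onto no copy of `K`. -/
theorem result : ∃ K L M : Set (Fin 3 → ℝ),
    (IsPolyhedron K ∧ IsConnected K ∧ IsTwoDimensional K) ∧
    (IsPolyhedron L ∧ IsConnected L ∧ IsTwoDimensional L) ∧
    (IsPolyhedron M ∧ Collapses M K ∧ Collapses M L ∧ Deformation K L) ∧
    (∀ e : C(L, (K ×ˢ Icc (0 : ℝ) 1 : Set ((Fin 3 → ℝ) × ℝ))), IsPLEmbedding e →
      ¬ ∃ r : C((K ×ˢ Icc (0 : ℝ) 1 : Set ((Fin 3 → ℝ) × ℝ)), L),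
        (e.comp r).Homotopic (ContinuousMap.id _)) ∧
    (∀ e : C(K, (L ×ˢ Icc (0 : ℝ) 1 : Set ((Fin 3 → ℝ) × ℝ))), IsPLEmbedding e →
      ¬ ∃ r : C((L ×ˢ Icc (0 : ℝ) 1 : Set ((Fin 3 → ℝ) × ℝ)), K),
        (e.comp r).Homotopic (ContinuousMap.id _)) ∧
    (¬ ∃ L' : Set ((Fin 3 → ℝ) × ℝ), PLHomeo L L' ∧ Collapses (K ×ˢ Icc (0 : ℝ) 1) L') ∧
    (¬ ∃ K' : Set ((Fin 3 → ℝ) × ℝ), PLHomeo K K' ∧ Collapses (L ×ˢ Icc (0 : ℝ) 1) K') :=
  ⟨Neck pK, Neck pL, M0,
    ⟨isPolyhedron_Neck_K, isConnected_Neck pK, isTwoDimensional_Neck pK⟩,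
    ⟨isPolyhedron_Neck_L, isConnected_Neck pL, isTwoDimensional_Neck pL⟩,
    ⟨collK1.1, collapses_K, collapses_L, deformation_KL⟩,
    no_emb_K, no_emb_L, no_collapse_K, no_collapse_L⟩

end Pool.Agent.Results.MP_e11f15_gt.NoHomotopyEmbedding
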